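import Mathlib
import Pool.Agent.L7h48.SGP.Stm

/-!
# Project SGP, part CB (owner: helper48): the weight may be replaced by its mean
-/

set_option autoImplicit false

namespace Pool.Agent.L7h75.SGP.CBx

open Finset Pool.Agent.L7h48.SGP

lemma Wt_nonneg (j m y : ℕ) : 0 ≤ Wt j m y := by
  unfold Wt
  apply prod_nonneg
  intro q _
  rcases jacobiSym.trichotomy ((3 ^ j * m : ℕ) : ℤ) q with h | h | h <;> rw [h] <;> norm_num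

lemma Wt_le (j m y : ℕ) (hy : 0 < y) : Wt j m y ≤ √(y : ℝ) := by
  apply Real.le_sqrt_of_sq_le
  unfold Wt
  rw [← prod_pow]
  calc ∏ q ∈ y.primeFactors.filter (5 ≤ ·), (1 + (jacobiSym ((3 ^ j * m : ℕ) : ℤ) q : ℝ)) ^ 2
      ≤ ∏ q ∈ y.primeFactors.filter (5 ≤ ·), (q : ℝ) := by
        apply prod_le_prod
        · intro q _; exact sq_nonneg _
        · intro q hq
          rw [mem_filter] at hq
          have h5 : (5 : ℝ) ≤ q := by exact_mod_cast hq.2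
          rcases jacobiSym.trichotomy ((3 ^ j * m : ℕ) : ℤ) q with h | h | h <;> rw [h] <;>
            norm_num <;> linarith
    _ = ((∏ q ∈ y.primeFactors.filter (5 ≤ ·), q : ℕ) : ℝ) := by push_cast; rfl
    _ ≤ (y : ℝ) := by
        have h1 : (∏ q ∈ y.primeFactors.filter (5 ≤ ·), q) ∣ y :=
          (prod_dvd_prod_of_subset _ _ _ (filter_subset _ _)).trans (Nat.prod_primeFactors_dvd y)
        exact_mod_cast Nat.le_of_dvd hy h1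

lemma sum_inv_sqrt (Y : ℕ) : ∑ y ∈ Icc 1 Y, 1 / √(y : ℝ) ≤ 2 * √(Y : ℝ) := by
  induction Y with
  | zero => simp
  | succ Y ih =>
    rw [sum_Icc_succ_top (by omega)]
    have hY : (0 : ℝ) ≤ Y := Nat.cast_nonneg Y
    have ha : 0 < √((Y + 1 : ℕ) : ℝ) := Real.sqrt_pos.2 (by positivity)
    have hb : 0 ≤ √(Y : ℝ) := Real.sqrt_nonneg _
    have ha2 : √((Y + 1 : ℕ) : ℝ) ^ 2 = (Y : ℝ) + 1 := by
      rw [Real.sq_sqrt (by positivity)]; push_cast; ring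
    have hb2 : √(Y : ℝ) ^ 2 = (Y : ℝ) := Real.sq_sqrt hY
    have hkey : 1 / √((Y + 1 : ℕ) : ℝ) ≤ 2 * √((Y + 1 : ℕ) : ℝ) - 2 * √(Y : ℝ) := by
      rw [div_le_iff₀ ha]
      nlinarith [sq_nonneg (√((Y + 1 : ℕ) : ℝ) - √(Y : ℝ))]
    linarith

/-- the first root is monotone in `m` -/
lemma mono_g (j : ℕ) (c y : ℝ) :
    Monotone fun m : ℕ => √(4 * (3 ^ j * (m : ℝ) ^ 3) - (c * (m : ℝ)) ^ 2 * y ^ 2) := by
  intro m n hmn
  have hm0 : (0 : ℝ) ≤ m := Nat.cast_nonneg m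
  have hr : (m : ℝ) ≤ n := by exact_mod_cast hmn
  have h3 : (0 : ℝ) < 3 ^ j := by positivity
  show √(4 * (3 ^ j * (m : ℝ) ^ 3) - (c * (m : ℝ)) ^ 2 * y ^ 2) ≤
    √(4 * (3 ^ j * (n : ℝ) ^ 3) - (c * (n : ℝ)) ^ 2 * y ^ 2)
  rcases le_or_gt (4 * 3 ^ j * (m : ℝ) - c ^ 2 * y ^ 2) 0 with h | h
  · have : 4 * (3 ^ j * (m : ℝ) ^ 3) - (c * (m : ℝ)) ^ 2 * y ^ 2 ≤ 0 := by
      have e : 4 * (3 ^ j * (m : ℝ) ^ 3) - (c * (m : ℝ)) ^ 2 * y ^ 2 =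
        (m : ℝ) ^ 2 * (4 * 3 ^ j * (m : ℝ) - c ^ 2 * y ^ 2) := by ring
      rw [e]
      exact mul_nonpos_of_nonneg_of_nonpos (sq_nonneg _) h
    rw [Real.sqrt_eq_zero_of_nonpos this]
    exact Real.sqrt_nonneg _
  · apply Real.sqrt_le_sqrt
    have e : ∀ t : ℝ, 4 * (3 ^ j * t ^ 3) - (c * t) ^ 2 * y ^ 2 =
      t ^ 2 * (4 * 3 ^ j * t - c ^ 2 * y ^ 2) := fun t => by ring
    rw [e, e]
    apply mul_le_mul (pow_le_pow_left₀ hm0 hr 2) _ h.le (sq_nonneg _)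
    have : 4 * 3 ^ j * (m : ℝ) ≤ 4 * 3 ^ j * (n : ℝ) :=
      mul_le_mul_of_nonneg_left hr (by positivity)
    linarith

lemma mono_h (j : ℕ) (a : ℝ) : Monotone fun m : ℕ => √(4 * (3 ^ j * (m : ℝ) ^ 3) - a) := by
  intro m n hmn
  apply Real.sqrt_le_sqrt
  have hm0 : (0 : ℝ) ≤ m := Nat.cast_nonneg m
  have hr : (m : ℝ) ≤ n := by exact_mod_cast hmn
  have h1 := pow_le_pow_left₀ hm0 hr 3
  have h2 : (3 : ℝ) ^ j * (m : ℝ) ^ 3 ≤ 3 ^ j * (n : ℝ) ^ 3 :=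
    mul_le_mul_of_nonneg_left h1 (by positivity)
  linarith

lemma top_le (j M : ℕ) (hj : j ≤ 1) (u b : ℝ) (_hu : 0 ≤ u) (hM : (M : ℝ) ≤ u ^ 4) (hb : 0 ≤ b) :
    √(4 * (3 ^ j * (M : ℝ) ^ 3) - b) ≤ 4 * u ^ 6 := by
  apply Real.sqrt_le_iff.2
  refine ⟨by positivity, ?_⟩
  have hM0 : (0 : ℝ) ≤ M := Nat.cast_nonneg M
  have h1 : (M : ℝ) ^ 3 ≤ (u ^ 4) ^ 3 := pow_le_pow_left₀ hM0 hM 3
  have h3 : (3 : ℝ) ^ j ≤ 3 := by
    calc (3 : ℝ) ^ j ≤ 3 ^ 1 := pow_le_pow_right₀ (by norm_num) hj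
      _ = 3 := by norm_num
  have h4 : (3 : ℝ) ^ j * (M : ℝ) ^ 3 ≤ 3 * (u ^ 4) ^ 3 :=
    mul_le_mul h3 h1 (by positivity) (by norm_num)
  have h5 : (0 : ℝ) ≤ (u ^ 4) ^ 3 := by positivity
  have h6 : (4 * u ^ 6) ^ 2 = 16 * (u ^ 4) ^ 3 := by ring
  rw [h6]
  linarith

/-- one `j`, one `y` -/
lemma one_y (hAB : S_AB) (C : ℝ) (hC : 0 < C)
    (hWM : ∀ (j y N : ℕ), j ≤ 1 → 0 < y →
      |∑ m ∈ Finset.Icc 1 N, (k2 j m y * k3 j m y * Wt j m y - Rm j y)| ≤ C * y * √(y : ℝ))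
    (j y M : ℕ) (hj : j ≤ 1) (hy : 0 < y) (u Q : ℝ) (hu : 0 ≤ u) (hM : (M : ℝ) ≤ u ^ 4) :
    ∑ m ∈ Icc 1 M, (k2 j m y * k3 j m y * Wt j m y - Rm j y) *
      Hh (4 * (3 ^ j * (m : ℝ) ^ 3)) (Real.pi / 2 * m) Q y ≤ 16 * C * u ^ 6 * (1 / √(y : ℝ)) := by
  have hy0 : (0 : ℝ) < y := by exact_mod_cast hy
  set w : ℕ → ℝ := fun m => k2 j m y * k3 j m y * Wt j m y - Rm j y with hw
  set g : ℕ → ℝ := fun m => √(4 * (3 ^ j * (m : ℝ) ^ 3) - (Real.pi / 2 * (m : ℝ)) ^ 2 * (y : ℝ) ^ 2)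
    with hg
  set h : ℕ → ℝ := fun m => √(4 * (3 ^ j * (m : ℝ) ^ 3) - Q ^ 2 * (y : ℝ) ^ 2) with hh
  have hE : ∀ N ≤ M, |∑ m ∈ Icc 1 N, w m| ≤ C * y * √(y : ℝ) := fun N _ => hWM j y N hj hy
  have h1 := hAB w g _ M hE (fun m => Real.sqrt_nonneg _) (mono_g j (Real.pi / 2) y)
  have h2 := hAB w h _ M hE (fun m => Real.sqrt_nonneg _) (mono_h j (Q ^ 2 * (y : ℝ) ^ 2))
  have h3 : g M ≤ 4 * u ^ 6 := top_le j M hj u _ hu hM (by positivity)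
  have h4 : h M ≤ 4 * u ^ 6 := top_le j M hj u _ hu hM (by positivity)
  have hE0 : 0 ≤ 2 * (C * y * √(y : ℝ)) := by positivity
  have e : ∀ m ∈ Icc 1 M, (k2 j m y * k3 j m y * Wt j m y - Rm j y) *
      Hh (4 * (3 ^ j * (m : ℝ) ^ 3)) (Real.pi / 2 * m) Q y = (w m * g m - w m * h m) / (y : ℝ) ^ 2 := by
    intro m _
    simp only [hw, hg, hh, Hh]
    ring
  rw [sum_congr rfl e, ← sum_div, sum_sub_distrib]
  have h5 : ∑ m ∈ Icc 1 M, w m * g m - ∑ m ∈ Icc 1 M, w m * h m ≤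
      16 * C * u ^ 6 * (y * √(y : ℝ)) := by
    have a1 := (le_abs_self _).trans (h1.trans (mul_le_mul_of_nonneg_left h3 hE0))
    have a2 := (neg_le_abs _).trans (h2.trans (mul_le_mul_of_nonneg_left h4 hE0))
    nlinarith
  have hs : 0 < √(y : ℝ) := Real.sqrt_pos.2 hy0
  have hs2 : √(y : ℝ) ^ 2 = y := Real.sq_sqrt hy0.le
  calc (∑ m ∈ Icc 1 M, w m * g m - ∑ m ∈ Icc 1 M, w m * h m) / (y : ℝ) ^ 2
      ≤ 16 * C * u ^ 6 * (y * √(y : ℝ)) / (y : ℝ) ^ 2 :=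
        div_le_div_of_nonneg_right h5 (by positivity)
    _ = 16 * C * u ^ 6 * (1 / √(y : ℝ)) := by
        have key : ((y : ℝ) * √(y : ℝ)) / (y : ℝ) ^ 2 = 1 / √(y : ℝ) := by
          rw [div_eq_div_iff (by positivity) hs.ne', mul_assoc, Real.mul_self_sqrt hy0.le]
          ring
        rw [mul_div_assoc, key]

lemma per_j (hAB : S_AB) (C : ℝ) (hC : 0 < C)
    (hWM : ∀ (j y N : ℕ), j ≤ 1 → 0 < y →
      |∑ m ∈ Finset.Icc 1 N, (k2 j m y * k3 j m y * Wt j m y - Rm j y)| ≤ C * y * √(y : ℝ))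
    (j M Y : ℕ) (hj : j ≤ 1) (u Q : ℝ) (hu : 0 ≤ u) (hM : (M : ℝ) ≤ u ^ 4)
    (hY : (Y : ℝ) ≤ 2 * u ^ 2) :
    ∑ m ∈ Icc 1 M, ∑ y ∈ Icc 1 Y,
      (k2 j m y * k3 j m y * Wt j m y * Hh (4 * (3 ^ j * (m : ℝ) ^ 3)) (Real.pi / 2 * m) Q y +
        8 * Wt j m y) ≤
    ∑ m ∈ Icc 1 M, ∑ y ∈ Icc 1 Y, Rm j y * Hh (4 * (3 ^ j * (m : ℝ) ^ 3)) (Real.pi / 2 * m) Q y +
      (64 * C + 32) * u ^ 7 := by
  have hsY : √(Y : ℝ) ≤ 2 * u := by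
    apply Real.sqrt_le_iff.2
    refine ⟨by positivity, ?_⟩
    nlinarith [sq_nonneg u]
  have e1 : ∑ m ∈ Icc 1 M, ∑ y ∈ Icc 1 Y,
      (k2 j m y * k3 j m y * Wt j m y * Hh (4 * (3 ^ j * (m : ℝ) ^ 3)) (Real.pi / 2 * m) Q y +
        8 * Wt j m y) =
      ∑ m ∈ Icc 1 M, ∑ y ∈ Icc 1 Y, Rm j y * Hh (4 * (3 ^ j * (m : ℝ) ^ 3)) (Real.pi / 2 * m) Q y +
      ∑ m ∈ Icc 1 M, ∑ y ∈ Icc 1 Y, (k2 j m y * k3 j m y * Wt j m y - Rm j y) *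
        Hh (4 * (3 ^ j * (m : ℝ) ^ 3)) (Real.pi / 2 * m) Q y +
      ∑ m ∈ Icc 1 M, ∑ y ∈ Icc 1 Y, 8 * Wt j m y := by
    rw [← sum_add_distrib, ← sum_add_distrib]
    apply sum_congr rfl
    intro m _
    rw [← sum_add_distrib, ← sum_add_distrib]
    apply sum_congr rfl
    intro y _
    ring
  have e2 : ∑ m ∈ Icc 1 M, ∑ y ∈ Icc 1 Y, (k2 j m y * k3 j m y * Wt j m y - Rm j y) *
        Hh (4 * (3 ^ j * (m : ℝ) ^ 3)) (Real.pi / 2 * m) Q y ≤ 64 * C * u ^ 7 := by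
    rw [sum_comm]
    calc ∑ y ∈ Icc 1 Y, ∑ m ∈ Icc 1 M, (k2 j m y * k3 j m y * Wt j m y - Rm j y) *
        Hh (4 * (3 ^ j * (m : ℝ) ^ 3)) (Real.pi / 2 * m) Q y
        ≤ ∑ y ∈ Icc 1 Y, 16 * C * u ^ 6 * (1 / √(y : ℝ)) := by
          apply sum_le_sum
          intro y hy
          rw [mem_Icc] at hy
          exact one_y hAB C hC hWM j y M hj (by omega) u Q hu hM
      _ = 16 * C * u ^ 6 * ∑ y ∈ Icc 1 Y, 1 / √(y : ℝ) := by rw [mul_sum]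
      _ ≤ 16 * C * u ^ 6 * (2 * √(Y : ℝ)) :=
          mul_le_mul_of_nonneg_left (sum_inv_sqrt Y) (by positivity)
      _ ≤ 16 * C * u ^ 6 * (2 * (2 * u)) :=
          mul_le_mul_of_nonneg_left (by linarith) (by positivity)
      _ = 64 * C * u ^ 7 := by ring
  have e3 : ∑ m ∈ Icc 1 M, ∑ y ∈ Icc 1 Y, 8 * Wt j m y ≤ 32 * u ^ 7 := by
    calc ∑ m ∈ Icc 1 M, ∑ y ∈ Icc 1 Y, 8 * Wt j m y
        ≤ ∑ m ∈ Icc 1 M, ∑ y ∈ Icc 1 Y, 8 * (2 * u) := by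
          apply sum_le_sum
          intro m _
          apply sum_le_sum
          intro y hy
          rw [mem_Icc] at hy
          have h1 : √(y : ℝ) ≤ √(Y : ℝ) := Real.sqrt_le_sqrt (by exact_mod_cast hy.2)
          have h2 := Wt_le j m y (by omega)
          linarith
      _ = (M : ℝ) * ((Y : ℝ) * (8 * (2 * u))) := by
          rw [sum_const, sum_const, Nat.card_Icc, Nat.card_Icc, nsmul_eq_mul, nsmul_eq_mul]
          simp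
      _ ≤ u ^ 4 * (2 * u ^ 2 * (8 * (2 * u))) := by
          apply mul_le_mul hM _ (by positivity) (by positivity)
          exact mul_le_mul_of_nonneg_right hY (by positivity)
      _ = 32 * u ^ 7 := by ring
  rw [e1]
  linarith

theorem s_CB (hWM : S_WM) (hAB : S_AB) : S_CB := by
  obtain ⟨C, hC, hWM⟩ := hWM
  refine ⟨128 * C + 64, by positivity, fun X hX => ?_⟩
  have hX0 : (0 : ℝ) < X := by exact_mod_cast hX
  have hpi := Real.pi_pos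
  set u : ℝ := (X : ℝ) ^ (1 / 8 : ℝ) with hu
  have hu0 : 0 ≤ u := Real.rpow_nonneg hX0.le _
  have hu8 : u ^ 8 = X := by
    rw [hu, ← Real.rpow_natCast, ← Real.rpow_mul hX0.le]; norm_num
  have hu7 : u ^ 7 = (X : ℝ) ^ (7 / 8 : ℝ) := by
    rw [hu, ← Real.rpow_natCast, ← Real.rpow_mul hX0.le]; norm_num
  have hs1 : √(X : ℝ) = u ^ 4 := by
    rw [← hu8, show u ^ 8 = (u ^ 4) ^ 2 by ring]
    exact Real.sqrt_sq (by positivity)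
  have hs2 : √√(X : ℝ) = u ^ 2 := by
    rw [hs1, show u ^ 4 = (u ^ 2) ^ 2 by ring]
    exact Real.sqrt_sq (by positivity)
  set M : ℕ := ⌊2 / Real.pi * √(X : ℝ)⌋₊ with hM
  set Y : ℕ := ⌊2 * √√(X : ℝ)⌋₊ with hY
  have hMr : (M : ℝ) ≤ u ^ 4 := by
    have h0 : (M : ℝ) ≤ 2 / Real.pi * √(X : ℝ) := Nat.floor_le (by positivity)
    refine h0.trans ?_
    have h1 : 2 / Real.pi ≤ 1 := by
      rw [div_le_one hpi]; linarith [Real.two_le_pi]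
    calc 2 / Real.pi * √(X : ℝ) ≤ 1 * √(X : ℝ) :=
          mul_le_mul_of_nonneg_right h1 (Real.sqrt_nonneg _)
      _ = u ^ 4 := by rw [one_mul, hs1]
  have hYr : (Y : ℝ) ≤ 2 * u ^ 2 := by
    have h0 : (Y : ℝ) ≤ 2 * √√(X : ℝ) := Nat.floor_le (by positivity)
    rwa [hs2] at h0
  rw [sum_range_succ, sum_range_one, sum_range_succ, sum_range_one, ← hu7]
  have h0 := per_j hAB C hC hWM 0 M Y (by norm_num) u (√(X : ℝ)) hu0 hMr hYr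
  have h1 := per_j hAB C hC hWM 1 M Y (by norm_num) u (√(X : ℝ)) hu0 hMr hYr
  linarith

end Pool.Agent.L7h75.SGP.CBx
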