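import Mathlib
import Pool.Agent.L7h48.SGP.Stm

/-!
# Project SGP, part CC (owner: helper48): the main term
-/

set_option autoImplicit false

namespace Pool.Agent.L7h75.SGP

open Finset Pool.Agent.L7h48.SGP

lemma Rm_add (j a k : ℕ) : Rm j (a + 36 * k) = Rm j a := by
  unfold Rm
  have h1 : (a + 36 * k) % 2 = a % 2 := by omega
  have h2 : (a + 36 * k) % 3 = a % 3 := by omega
  have h3 : (a + 36 * k) % 9 = a % 9 := by omega
  rw [h1, h2, h3]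

lemma Rm_nonneg (j y : ℕ) : 0 ≤ Rm j y := by
  unfold Rm
  split_ifs <;> norm_num

lemma Rm_sum0 : ∑ a ∈ range 36, Rm 0 (a + 1) = 4 / 3 := by
  simp only [sum_range_succ, sum_range_zero]
  unfold Rm
  norm_num

lemma Rm_sum1 : ∑ a ∈ range 36, Rm 1 (a + 1) = 8 / 3 := by
  simp only [sum_range_succ, sum_range_zero]
  unfold Rm
  norm_num

lemma sum_Icc_range (f : ℕ → ℝ) (Y : ℕ) : ∑ y ∈ Icc 1 Y, f y = ∑ y ∈ range Y, f (y + 1) := by
  induction Y with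
  | zero => simp
  | succ Y ih => rw [sum_Icc_succ_top (by omega), sum_range_succ, ih]

lemma group36 (f : ℕ → ℝ) (K : ℕ) : ∑ y ∈ range (36 * K), f (y + 1) =
    ∑ a ∈ range 36, ∑ k ∈ range K, f (a + 1 + 36 * k) := by
  induction K with
  | zero => simp
  | succ K ih =>
    rw [show 36 * (K + 1) = 36 * K + 36 by ring, sum_range_add, ih]
    simp_rw [sum_range_succ _ K]
    rw [sum_add_distrib]
    congr 1
    apply sum_congr rfl
    intro a _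
    congr 1
    ring

lemma Hh_nonneg (A P Q y : ℝ) (hP : 0 ≤ P) (hPQ : P ≤ Q) : 0 ≤ Hh A P Q y := by
  unfold Hh
  apply div_nonneg _ (sq_nonneg y)
  have h1 : P ^ 2 ≤ Q ^ 2 := by
    apply pow_le_pow_left₀ hP hPQ
  have h2 : P ^ 2 * y ^ 2 ≤ Q ^ 2 * y ^ 2 := mul_le_mul_of_nonneg_right h1 (sq_nonneg y)
  have := Real.sqrt_le_sqrt (show A - Q ^ 2 * y ^ 2 ≤ A - P ^ 2 * y ^ 2 by linarith)
  linarith

lemma inner (hYS : S_YS) (j m X Y : ℕ) (hm : 1 ≤ m) (hmM : Real.pi / 2 * (m : ℝ) ≤ √(X : ℝ)) :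
    ∑ y ∈ Icc 1 Y, Rm j y * Hh (4 * (3 ^ j * (m : ℝ) ^ 3)) (Real.pi / 2 * m) (√(X : ℝ)) y ≤
      (∑ a ∈ range 36, Rm j (a + 1)) * (Real.pi / 72 * (√(X : ℝ) - Real.pi / 2 * m) +
        2 * min (√(4 * (3 ^ j * (m : ℝ) ^ 3))) (√(X : ℝ) ^ 2 / √(4 * (3 ^ j * (m : ℝ) ^ 3)))) := by
  have hm0 : (0 : ℝ) < m := by exact_mod_cast hm
  have hpi := Real.pi_pos
  set A : ℝ := 4 * (3 ^ j * (m : ℝ) ^ 3) with hA
  have hA0 : 0 < A := by positivity
  set P : ℝ := Real.pi / 2 * m with hP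
  have hP0 : 0 < P := by positivity
  set Q : ℝ := √(X : ℝ) with hQ
  have hnn : ∀ y : ℕ, 0 ≤ Rm j y * Hh A P Q y := fun y =>
    mul_nonneg (Rm_nonneg j y) (Hh_nonneg A P Q y hP0.le hmM)
  calc ∑ y ∈ Icc 1 Y, Rm j y * Hh A P Q y ≤ ∑ y ∈ Icc 1 (36 * Y), Rm j y * Hh A P Q y := by
        apply sum_le_sum_of_subset_of_nonneg
        · apply Icc_subset_Icc_right
          omega
        · intro y _ _
          exact hnn y
    _ = ∑ a ∈ range 36, ∑ k ∈ range Y, Rm j (a + 1 + 36 * k) *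
          Hh A P Q ((a + 1 + 36 * k : ℕ) : ℝ) := by
        rw [sum_Icc_range (fun y => Rm j y * Hh A P Q y),
          group36 (fun y => Rm j y * Hh A P Q y)]
    _ = ∑ a ∈ range 36, Rm j (a + 1) * ∑ k ∈ range Y, Hh A P Q ((a + 1 + 36 * k : ℕ) : ℝ) := by
        apply sum_congr rfl
        intro a _
        rw [mul_sum]
        apply sum_congr rfl
        intro k _
        rw [Rm_add]
    _ ≤ ∑ a ∈ range 36, Rm j (a + 1) * (Real.pi / 72 * (Q - P) + 2 * min (√A) (Q ^ 2 / √A)) := by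
        apply sum_le_sum
        intro a _
        exact mul_le_mul_of_nonneg_left (hYS A P Q hA0 hP0 hmM (a + 1) Y (by omega))
          (Rm_nonneg j _)
    _ = _ := by rw [sum_mul]

lemma sum_lin (s c : ℝ) (hc : 0 < c) (M : ℕ) :
    ∑ m ∈ Icc 1 M, (s - c * (m : ℝ)) ≤ s ^ 2 / (2 * c) := by
  have h1 : ∑ m ∈ Icc 1 M, (s - c * (m : ℝ)) = M * s - c * (M * (M + 1) / 2) := by
    induction M with
    | zero => simp
    | succ M ih => rw [sum_Icc_succ_top (by omega), ih]; push_cast; ring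
  rw [h1, le_div_iff₀ (by positivity)]
  have hM : (0 : ℝ) ≤ M := Nat.cast_nonneg M
  nlinarith [sq_nonneg (c * M - s), mul_nonneg (mul_nonneg hc.le hc.le) hM]

lemma min_le (a b : ℝ) (ha : 0 < a) (hb : 0 ≤ b) : min a (b ^ 2 / a) ≤ b := by
  rcases le_total a b with h | h
  · exact (min_le_left _ _).trans h
  · refine (min_le_right _ _).trans ?_
    rw [div_le_iff₀ ha, pow_two]
    exact mul_le_mul_of_nonneg_left h hb

lemma err (j X M : ℕ) (hX : 1 ≤ X) (hM : (M : ℝ) ≤ √(X : ℝ)) :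
    ∑ m ∈ Icc 1 M, min (√(4 * (3 ^ j * (m : ℝ) ^ 3))) (√(X : ℝ) ^ 2 / √(4 * (3 ^ j * (m : ℝ) ^ 3)))
      ≤ 2 * (X : ℝ) ^ (9 / 10 : ℝ) := by
  have hX0 : (0 : ℝ) < X := by exact_mod_cast hX
  set t : ℝ := (X : ℝ) ^ (2 / 5 : ℝ) with ht
  have ht0 : 0 < t := Real.rpow_pos_of_pos hX0 _
  have hQ : √(X : ℝ) = (X : ℝ) ^ (1 / 2 : ℝ) := Real.sqrt_eq_rpow _
  have hQ0 : 0 ≤ √(X : ℝ) := Real.sqrt_nonneg _
  have htQ : t * √(X : ℝ) = (X : ℝ) ^ (9 / 10 : ℝ) := by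
    rw [hQ, ht, ← Real.rpow_add hX0]
    norm_num
  have hpt : ∀ m ∈ Icc 1 M, min (√(4 * (3 ^ j * (m : ℝ) ^ 3)))
      (√(X : ℝ) ^ 2 / √(4 * (3 ^ j * (m : ℝ) ^ 3))) ≤ (if (m : ℝ) ≤ t then √(X : ℝ) else 0) + t := by
    intro m hm
    rw [mem_Icc] at hm
    have hm0 : (0 : ℝ) < m := by exact_mod_cast hm.1
    have hA0 : 0 < √(4 * (3 ^ j * (m : ℝ) ^ 3)) := Real.sqrt_pos.2 (by positivity)
    split_ifs with h
    · have := min_le _ _ hA0 hQ0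
      linarith
    · push Not at h
      rw [zero_add]
      refine (min_le_right _ _).trans ?_
      rw [div_le_iff₀ hA0, Real.sq_sqrt hX0.le]
      have h1 : t ^ 3 ≤ 4 * (3 ^ j * (m : ℝ) ^ 3) := by
        have h3 : (1 : ℝ) ≤ 3 ^ j := one_le_pow₀ (by norm_num)
        have h4 : t ^ 3 ≤ (m : ℝ) ^ 3 := pow_le_pow_left₀ ht0.le h.le 3
        have h5 : (0 : ℝ) < (m : ℝ) ^ 3 := by positivity
        nlinarith
      have h2 : √(t ^ 3) ≤ √(4 * (3 ^ j * (m : ℝ) ^ 3)) := Real.sqrt_le_sqrt h1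
      have h3 : t * √(t ^ 3) = X := by
        rw [Real.sqrt_eq_rpow, ht, ← Real.rpow_natCast ((X : ℝ) ^ (2 / 5 : ℝ)) 3,
          ← Real.rpow_mul hX0.le, ← Real.rpow_mul hX0.le, ← Real.rpow_add hX0]
        norm_num
      calc (X : ℝ) = t * √(t ^ 3) := h3.symm
        _ ≤ t * √(4 * (3 ^ j * (m : ℝ) ^ 3)) := mul_le_mul_of_nonneg_left h2 ht0.le
  refine (sum_le_sum hpt).trans ?_
  rw [sum_add_distrib, ← sum_filter, sum_const, sum_const, nsmul_eq_mul, nsmul_eq_mul]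
  have hc1 : (((Icc 1 M).filter fun m : ℕ => (m : ℝ) ≤ t).card : ℝ) ≤ t := by
    have : ((Icc 1 M).filter fun m : ℕ => (m : ℝ) ≤ t) ⊆ Icc 1 ⌊t⌋₊ := by
      intro m hm
      rw [mem_filter, mem_Icc] at hm
      rw [mem_Icc]
      exact ⟨hm.1.1, Nat.le_floor hm.2⟩
    have h2 := card_le_card this
    rw [Nat.card_Icc] at h2
    have h3 : ((⌊t⌋₊ : ℕ) : ℝ) ≤ t := Nat.floor_le ht0.le
    have h4 : (((Icc 1 M).filter fun m : ℕ => (m : ℝ) ≤ t).card : ℝ) ≤ ((⌊t⌋₊ : ℕ) : ℝ) := by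
      exact_mod_cast (by omega)
    linarith
  have hc2 : ((Icc 1 M).card : ℝ) ≤ √(X : ℝ) := by
    rw [Nat.card_Icc]; simpa using hM
  have e1 := mul_le_mul_of_nonneg_right hc1 hQ0
  have e2 := mul_le_mul_of_nonneg_right hc2 ht0.le
  have e3 : √(X : ℝ) * t = t * √(X : ℝ) := mul_comm _ _
  rw [← htQ]
  linarith

theorem s_CC (hYS : S_YS) : S_CC := by
  refine ⟨16, by norm_num, fun X hX => ?_⟩
  have hX0 : (0 : ℝ) < X := by exact_mod_cast hX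
  have hpi := Real.pi_pos
  set M : ℕ := ⌊2 / Real.pi * √(X : ℝ)⌋₊ with hM
  set Y : ℕ := ⌊2 * √√(X : ℝ)⌋₊ with hY
  have hMr : (M : ℝ) ≤ 2 / Real.pi * √(X : ℝ) := Nat.floor_le (by positivity)
  have hMX : (M : ℝ) ≤ √(X : ℝ) := by
    refine hMr.trans ?_
    have h1 : 2 / Real.pi ≤ 1 := by
      rw [div_le_one hpi]; linarith [Real.two_le_pi]
    calc 2 / Real.pi * √(X : ℝ) ≤ 1 * √(X : ℝ) :=
          mul_le_mul_of_nonneg_right h1 (Real.sqrt_nonneg _)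
      _ = _ := one_mul _
  have hper : ∀ j : ℕ, ∑ m ∈ Icc 1 M, ∑ y ∈ Icc 1 Y,
      Rm j y * Hh (4 * (3 ^ j * (m : ℝ) ^ 3)) (Real.pi / 2 * m) (√(X : ℝ)) y ≤
      (∑ a ∈ range 36, Rm j (a + 1)) * ((X : ℝ) / 72 + 4 * (X : ℝ) ^ (9 / 10 : ℝ)) := by
    intro j
    have hR : 0 ≤ ∑ a ∈ range 36, Rm j (a + 1) := sum_nonneg fun a _ => Rm_nonneg j _
    have h1 : ∑ m ∈ Icc 1 M, ∑ y ∈ Icc 1 Y,
        Rm j y * Hh (4 * (3 ^ j * (m : ℝ) ^ 3)) (Real.pi / 2 * m) (√(X : ℝ)) y ≤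
        ∑ m ∈ Icc 1 M, (∑ a ∈ range 36, Rm j (a + 1)) *
          (Real.pi / 72 * (√(X : ℝ) - Real.pi / 2 * m) +
        2 * min (√(4 * (3 ^ j * (m : ℝ) ^ 3))) (√(X : ℝ) ^ 2 / √(4 * (3 ^ j * (m : ℝ) ^ 3)))) := by
      apply sum_le_sum
      intro m hm
      rw [mem_Icc] at hm
      apply inner hYS j m X Y hm.1
      have h2 : (m : ℝ) ≤ 2 / Real.pi * √(X : ℝ) :=
        le_trans (by exact_mod_cast hm.2) hMr
      calc Real.pi / 2 * (m : ℝ) ≤ Real.pi / 2 * (2 / Real.pi * √(X : ℝ)) :=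
            mul_le_mul_of_nonneg_left h2 (by positivity)
        _ = √(X : ℝ) := by field_simp
    refine h1.trans ?_
    rw [← mul_sum]
    apply mul_le_mul_of_nonneg_left _ hR
    rw [sum_add_distrib, ← mul_sum, ← mul_sum]
    have h3 := sum_lin (√(X : ℝ)) (Real.pi / 2) (by positivity) M
    have h4 : √(X : ℝ) ^ 2 / (2 * (Real.pi / 2)) = (X : ℝ) / Real.pi := by
      rw [Real.sq_sqrt hX0.le]; congr 1; ring
    rw [h4] at h3
    have h5 := err j X M hX hMX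
    have h6 : Real.pi / 72 * ∑ m ∈ Icc 1 M, (√(X : ℝ) - Real.pi / 2 * (m : ℝ)) ≤ (X : ℝ) / 72 := by
      calc Real.pi / 72 * ∑ m ∈ Icc 1 M, (√(X : ℝ) - Real.pi / 2 * (m : ℝ))
          ≤ Real.pi / 72 * ((X : ℝ) / Real.pi) := mul_le_mul_of_nonneg_left h3 (by positivity)
        _ = (X : ℝ) / 72 := by field_simp
    linarith
  rw [sum_range_succ, sum_range_one]
  have h0 := hper 0
  have h1 := hper 1
  rw [Rm_sum0] at h0
  rw [Rm_sum1] at h1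
  have : (0 : ℝ) ≤ (X : ℝ) ^ (9 / 10 : ℝ) := Real.rpow_nonneg hX0.le _
  linarith

end Pool.Agent.L7h75.SGP
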